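import Mathlib

/-!
Words, normal forms, fellow traveller function, torus bundle groups.
-/

set_option autoImplicit false

namespace Pool.Agent.X185.SOL



/-- Words over the formal alphabet `X ∪ X⁻¹`, `X = {x_1, …, x_m}`: the letter `(i, true)` is `x_i`,
the letter `(i, false)` is its formal inverse. -/
abbrev Word (m : ℕ) := List (Fin m × Bool)

section words

variable {G : Type*} [Group G] {m : ℕ}

/-- The value of a letter. -/
def letter (x : Fin m → G) (p : Fin m × Bool) : G := if p.2 then x p.1 else (x p.1)⁻¹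

/-- The evaluation map `π : S^* → G`. -/
def ev (x : Fin m → G) (w : Word m) : G := (w.map (letter x)).prod

/-- The word metric `d_X(g, h)`: the least length of a word `u` with `g π(u) = h`. -/
noncomputable def wdist (x : Fin m → G) (g h : G) : ℕ :=
  sInf {n : ℕ | ∃ u : Word m, u.length = n ∧ g * ev x u = h}

/-- `L` is a normal form: evaluation is a bijection from `L` onto `G`. -/
def IsNormalForm (x : Fin m → G) (L : Set (Word m)) : Prop :=
  Set.BijOn (ev x) L Set.univ

/-- `L` is prefix-closed. -/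
def PrefixClosed (L : Set (Word m)) : Prop :=
  ∀ w ∈ L, ∀ u : Word m, u <+: w → u ∈ L

/-- `L` is quasiregular: every prefix `u` of a word of `L` extends by at most `c` letters to a word
of `L`. -/
def Quasiregular (L : Set (Word m)) : Prop :=
  ∃ c : ℕ, ∀ w ∈ L, ∀ u : Word m, u <+: w → ∃ v : Word m, v.length ≤ c ∧ u ++ v ∈ L

/-- The set of numbers `d_X(π(w₁(t)), π(w₂(t)))`, `t ≤ n`, `w₁, w₂ ∈ L`, `π(w₁) x = π(w₂)` for
some `x ∈ X`. -/
def divergences (x : Fin m → G) (L : Set (Word m)) (n : ℕ) : Set ℕ :=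
  {d | ∃ t ≤ n, ∃ w₁ ∈ L, ∃ w₂ ∈ L, ∃ i : Fin m, ev x w₁ * x i = ev x w₂ ∧
    d = wdist x (ev x (w₁.take t)) (ev x (w₂.take t))}

/-- The function `s_L(n)`. -/
noncomputable def sL (x : Fin m → G) (L : Set (Word m)) (n : ℕ) : ℕ := sSup (divergences x L n)

/-- `h ⪯ f`. -/
def Preceq (h f : ℕ → ℝ) : Prop :=
  ∃ K M : ℕ, 0 < K ∧ 0 < M ∧ ∀ᶠ n : ℕ in Filter.atTop, h n ≤ K * f (M * n)

/-- `h ≪ f`: there is an unbounded nondecreasing `t ≥ 0` with `h t ⪯ f`. -/
def MuchLess (h f : ℕ → ℝ) : Prop :=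
  ∃ t : ℕ → ℝ, Monotone t ∧ (∀ n, 0 ≤ t n) ∧ (∀ B : ℝ, ∃ n, B < t n) ∧
    Preceq (fun n => h n * t n) f

/-- `L` has the `f(n)`-fellow traveler property; `f ≥ 0` is nondecreasing and `f ≪ n`. -/
def FellowTraveler (x : Fin m → G) (L : Set (Word m)) (f : ℕ → ℝ) : Prop :=
  Monotone f ∧ (∀ n, 0 ≤ f n) ∧ MuchLess f (fun n => (n : ℝ)) ∧
    Preceq (fun n => (sL x L n : ℝ)) f

theorem ev_nil (x : Fin m → G) : ev x [] = 1 := rfl

theorem ev_append (x : Fin m → G) (u v : Word m) : ev x (u ++ v) = ev x u * ev x v := by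
  unfold ev
  rw [List.map_append, List.prod_append]

theorem ev_cons (x : Fin m → G) (p : Fin m × Bool) (v : Word m) :
    ev x (p :: v) = letter x p * ev x v := by
  unfold ev
  rw [List.map_cons, List.prod_cons]

theorem ev_singleton (x : Fin m → G) (p : Fin m × Bool) : ev x [p] = letter x p := by
  rw [ev_cons, ev_nil, mul_one]

/-- `g` is a product of at most `n` letters. -/
def Reach (x : Fin m → G) (n : ℕ) (g : G) : Prop := ∃ u : Word m, u.length ≤ n ∧ ev x u = g

theorem Reach.mono {x : Fin m → G} {n k : ℕ} {g : G} (h : Reach x n g) (hk : n ≤ k) :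
    Reach x k g := by
  obtain ⟨u, hu, e⟩ := h
  exact ⟨u, hu.trans hk, e⟩

theorem Reach.one (x : Fin m → G) (n : ℕ) : Reach x n 1 := ⟨[], Nat.zero_le _, rfl⟩

theorem Reach.gen (x : Fin m → G) (i : Fin m) : Reach x 1 (x i) :=
  ⟨[(i, true)], le_rfl, by rw [ev_singleton]; rfl⟩

theorem Reach.mul {x : Fin m → G} {n k : ℕ} {g h : G} (hg : Reach x n g) (hh : Reach x k h) :
    Reach x (n + k) (g * h) := by
  obtain ⟨u, hu, rfl⟩ := hg
  obtain ⟨v, hv, rfl⟩ := hh
  refine ⟨u ++ v, ?_, ev_append x u v⟩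
  rw [List.length_append]
  omega

/-- formal inverse of a word. -/
def winv (u : Word m) : Word m := (u.map (fun p => (p.1, !p.2))).reverse

theorem ev_winv (x : Fin m → G) (u : Word m) : ev x (winv u) = (ev x u)⁻¹ := by
  induction u with
  | nil => simp [winv, ev]
  | cons p u ih =>
    have : winv (p :: u) = winv u ++ [(p.1, !p.2)] := by
      simp [winv]
    rw [this, ev_append, ev_singleton, ih, ev_cons, mul_inv_rev]
    congr 1
    unfold letter
    cases p.2 <;> simp

theorem Reach.inv {x : Fin m → G} {n : ℕ} {g : G} (hg : Reach x n g) : Reach x n g⁻¹ := by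
  obtain ⟨u, hu, rfl⟩ := hg
  exact ⟨winv u, by simpa [winv] using hu, ev_winv x u⟩

theorem Reach.pow {x : Fin m → G} {n : ℕ} {g : G} (hg : Reach x n g) (k : ℕ) :
    Reach x (k * n) (g ^ k) := by
  induction k with
  | zero => simpa using Reach.one x 0
  | succ k ih =>
    rw [pow_succ, Nat.succ_mul]
    exact ih.mul hg

theorem Reach.zpow {x : Fin m → G} {n : ℕ} {g : G} (hg : Reach x n g) (k : ℤ) :
    Reach x (k.natAbs * n) (g ^ k) := by
  obtain ⟨j, rfl | rfl⟩ := k.eq_nat_or_neg
  · simpa using hg.pow j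
  · simpa using (hg.pow j).inv

theorem wdist_le {x : Fin m → G} {n : ℕ} {g h : G} (H : Reach x n (g⁻¹ * h)) :
    wdist x g h ≤ n := by
  obtain ⟨u, hu, e⟩ := H
  refine le_trans (Nat.sInf_le ⟨u, rfl, ?_⟩) hu
  rw [e, mul_inv_cancel_left]

theorem wdist_le_add {x : Fin m → G} {n k : ℕ} {g h : G} (hg : Reach x n g) (hh : Reach x k h) :
    wdist x g h ≤ n + k := wdist_le (hg.inv.mul hh)

theorem reach_ev (x : Fin m → G) (w : Word m) : Reach x w.length (ev x w) := ⟨w, le_rfl, rfl⟩

/-- The numbers in the definition of `s_L(n)` are at most `2n`, so that `s_L(n)` is a maximum. -/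
theorem divergences_le (x : Fin m → G) (L : Set (Word m)) (n : ℕ) :
    ∀ d ∈ divergences x L n, d ≤ 2 * n := by
  rintro d ⟨t, ht, w₁, -, w₂, -, i, -, rfl⟩
  have h1 := wdist_le_add (reach_ev x (w₁.take t)) (reach_ev x (w₂.take t))
  rw [List.length_take, List.length_take] at h1
  omega

theorem quasiregular_of_prefixClosed {L : Set (Word m)} (h : PrefixClosed L) :
    Quasiregular L :=
  ⟨0, fun w hw u hu => ⟨[], le_rfl, by rw [List.append_nil]; exact h w hw u hu⟩⟩

theorem prefixClosed_of_dropLast {L : Set (Word m)} (h : ∀ w ∈ L, w.dropLast ∈ L) :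
    PrefixClosed L := by
  intro w
  induction w using List.reverseRecOn with
  | nil =>
    intro hw u hu
    have : u = [] := List.prefix_nil.1 hu
    rw [this]; exact hw
  | append_singleton w a ih =>
    intro hw u hu
    have h1 := h _ hw
    rw [List.dropLast_concat] at h1
    rcases List.prefix_concat_iff.1 hu with h2 | h2
    · rw [h2]; exact hw
    · exact ih h1 u h2

end words

end Pool.Agent.X185.SOL
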