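import Pool.Agent.X185.SOL.Torus

/-!
The language of the slow staircase.
-/

set_option autoImplicit false

namespace Pool.Agent.X185.SOL

/-- The power `x_i^a` as a word. -/
def pw (i : Fin 3) (a : ℤ) : Word 3 := List.replicate a.natAbs (i, decide (0 ≤ a))

/-- The trunk: the stage `k` is `e₁^{2^{2^k}} t^{±1}`. -/
def Up (s : Bool) : ℕ → Word 3
  | 0 => []
  | k + 1 => Up s k ++ List.replicate (2 ^ 2 ^ k) (0, true) ++ [(2, s)]

/-- The trunk up to height `k`. -/
def U (k : ℤ) : Word 3 := Up (decide (0 ≤ k)) k.natAbs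

/-- The language. -/
def lang : Set (Word 3) := {w | ∃ k a b : ℤ, w = U k ++ pw 0 a ++ pw 1 b}

theorem pw_zero (i : Fin 3) : pw i 0 = [] := rfl

theorem dropLast_pw {i : Fin 3} {a : ℤ} (ha : a ≠ 0) : ∃ b : ℤ, (pw i a).dropLast = pw i b := by
  rcases lt_trichotomy a 0 with h | h | h
  · by_cases h1 : a = -1
    · subst h1
      exact ⟨0, rfl⟩
    · refine ⟨a + 1, ?_⟩
      unfold pw
      rw [List.dropLast_replicate]
      have e1 : a.natAbs - 1 = (a + 1).natAbs := by omega
      have e2 : decide (0 ≤ a) = decide (0 ≤ a + 1) := by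
        rw [decide_eq_decide]; omega
      rw [e1, e2]
  · exact absurd h ha
  · refine ⟨a - 1, ?_⟩
    unfold pw
    rw [List.dropLast_replicate]
    have e1 : a.natAbs - 1 = (a - 1).natAbs := by omega
    have e2 : decide (0 ≤ a) = decide (0 ≤ a - 1) := by
      rw [decide_eq_decide]; omega
    rw [e1, e2]

theorem pw_ne_nil {i : Fin 3} {a : ℤ} (ha : a ≠ 0) : pw i a ≠ [] := by
  intro h
  have := congrArg List.length h
  unfold pw at this
  rw [List.length_replicate] at this
  simp at this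
  exact ha this

theorem lang_dropLast : ∀ w ∈ lang, w.dropLast ∈ lang := by
  rintro w ⟨k, a, b, rfl⟩
  by_cases hb : b = 0
  · subst hb
    rw [pw_zero, List.append_nil]
    by_cases ha : a = 0
    · subst ha
      rw [pw_zero, List.append_nil]
      by_cases hk : k = 0
      · subst hk
        exact ⟨0, 0, 0, rfl⟩
      · obtain ⟨n, hn⟩ : ∃ n, k.natAbs = n + 1 := ⟨k.natAbs - 1, by omega⟩
        unfold U
        rw [hn]
        have : (Up (decide (0 ≤ k)) (n + 1)).dropLast =
            Up (decide (0 ≤ k)) n ++ List.replicate (2 ^ 2 ^ n) (0, true) := by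
          show (_ ++ _ ++ [_]).dropLast = _
          rw [List.dropLast_concat]
        rw [this]
        rcases lt_or_gt_of_ne hk with h | h
        · by_cases h1 : k = -1
          · subst h1
            have hn0 : n = 0 := by
              have : (-1 : ℤ).natAbs = 1 := rfl
              omega
            subst hn0
            exact ⟨0, 2, 0, by rfl⟩
          · refine ⟨k + 1, ((2 ^ 2 ^ n : ℕ) : ℤ), 0, ?_⟩
            rw [pw_zero, List.append_nil]
            unfold U pw
            have e1 : (k + 1).natAbs = n := by omega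
            have e2 : decide (0 ≤ k) = decide (0 ≤ k + 1) := by
              rw [decide_eq_decide]; omega
            have e3 : decide (0 ≤ ((2 ^ 2 ^ n : ℕ) : ℤ)) = true := by
              rw [decide_eq_true_iff]; positivity
            rw [e1, ← e2, e3, Int.natAbs_natCast]
        · refine ⟨k - 1, ((2 ^ 2 ^ n : ℕ) : ℤ), 0, ?_⟩
          rw [pw_zero, List.append_nil]
          unfold U pw
          have e1 : (k - 1).natAbs = n := by omega
          have e2 : decide (0 ≤ k) = decide (0 ≤ k - 1) := by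
            rw [decide_eq_decide]; omega
          have e3 : decide (0 ≤ ((2 ^ 2 ^ n : ℕ) : ℤ)) = true := by
            rw [decide_eq_true_iff]; positivity
          rw [e1, ← e2, e3, Int.natAbs_natCast]
    · rw [List.dropLast_append_of_ne_nil (pw_ne_nil ha)]
      obtain ⟨c, hc⟩ := dropLast_pw (i := 0) ha
      rw [hc]
      exact ⟨k, c, 0, by rw [pw_zero, List.append_nil]⟩
  · rw [List.dropLast_append_of_ne_nil (pw_ne_nil hb)]
    obtain ⟨c, hc⟩ := dropLast_pw (i := 1) hb
    rw [hc]
    exact ⟨k, a, c, rfl⟩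

theorem lang_prefixClosed : PrefixClosed lang := prefixClosed_of_dropLast lang_dropLast

section

variable {M : Matrix.GeneralLinearGroup (Fin 2) ℤ}

theorem ev_replicate {G : Type*} [Group G] {m : ℕ} (x : Fin m → G) (n : ℕ) (p : Fin m × Bool) :
    ev x (List.replicate n p) = letter x p ^ n := by
  unfold ev
  rw [List.map_replicate, List.prod_replicate]

theorem ev_pw {G : Type*} [Group G] (x : Fin 3 → G) (i : Fin 3) (a : ℤ) :
    ev x (pw i a) = x i ^ a := by
  unfold pw
  rw [ev_replicate]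
  rcases le_or_gt 0 a with h | h
  · have : decide (0 ≤ a) = true := decide_eq_true h
    rw [this]
    obtain ⟨n, rfl⟩ := Int.eq_ofNat_of_zero_le h
    rw [zpow_natCast, Int.natAbs_natCast]
    rfl
  · have : decide (0 ≤ a) = false := decide_eq_false (by omega)
    rw [this]
    obtain ⟨n, hn⟩ := Int.eq_ofNat_of_zero_le (show 0 ≤ -a by omega)
    have h2 : a = -(n : ℤ) := by omega
    subst h2
    rw [zpow_neg, zpow_natCast, Int.natAbs_neg, Int.natAbs_natCast, ← inv_pow]
    rfl

theorem ev_Up_k (s : Bool) (n : ℕ) :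
    (ev (gen M) (Up s n)).k = if s then (n : ℤ) else -(n : ℤ) := by
  induction n with
  | zero => cases s <;> rfl
  | succ n ih =>
    show (ev (gen M) (Up s n ++ List.replicate (2 ^ 2 ^ n) (0, true) ++ [(2, s)])).k = _
    rw [ev_append, ev_append, ev_singleton, ev_replicate, mul_k, mul_k, ih]
    have h1 : letter (gen M) (0, true) = tr M (e 0) := rfl
    rw [h1, ← tr_nsmul]
    have h2 : (tr M (2 ^ 2 ^ n • e 0)).k = 0 := rfl
    rw [h2]
    cases s
    · have h3 : (letter (gen M) (2, false)).k = -1 := by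
        show ((gen M 2)⁻¹).k = -1
        rw [inv_k]; rfl
      rw [h3]
      simp
      ring
    · have h3 : (letter (gen M) (2, true)).k = 1 := rfl
      rw [h3]
      simp

theorem ev_U_k (k : ℤ) : (ev (gen M) (U k)).k = k := by
  unfold U
  rw [ev_Up_k]
  rcases le_or_gt 0 k with h | h
  · rw [decide_eq_true h, if_pos rfl]
    omega
  · rw [decide_eq_false (by omega), if_neg (by decide)]
    omega

theorem ev_lang (k a b : ℤ) : ev (gen M) (U k ++ pw 0 a ++ pw 1 b) =
    ev (gen M) (U k) * tr M ![a, b] := by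
  rw [ev_append, ev_append, ev_pw, ev_pw, gen_zero, gen_one, ← tr_zsmul, ← tr_zsmul, mul_assoc,
    tr_mul]
  congr 2
  exact (vec_eq ![a, b]).symm

theorem lang_normal : IsNormalForm (gen M) lang := by
  refine ⟨fun _ _ => trivial, ?_, ?_⟩
  · rintro _ ⟨k, a, b, rfl⟩ _ ⟨k', a', b', rfl⟩ h
    rw [ev_lang, ev_lang] at h
    have hk := congrArg TorusGroup.k h
    rw [mul_k, mul_k, ev_U_k, ev_U_k] at hk
    have hk' : k = k' := by simpa [tr] using hk
    subst hk'
    have h2 : tr M ![a, b] = tr M ![a', b'] := mul_left_cancel h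
    have h3 : (![a, b] : Fin 2 → ℤ) = ![a', b'] := congrArg TorusGroup.v h2
    have h4 : a = a' := congrFun h3 0
    have h5 : b = b' := congrFun h3 1
    rw [h4, h5]
  · intro g _
    set u : Fin 2 → ℤ := act M (-g.k) (g.v - (ev (gen M) (U g.k)).v) with hu
    refine ⟨U g.k ++ pw 0 (u 0) ++ pw 1 (u 1), ⟨_, _, _, rfl⟩, ?_⟩
    rw [ev_lang]
    have hu2 : (![u 0, u 1] : Fin 2 → ℤ) = u := by
      ext i; fin_cases i <;> rfl
    rw [hu2]
    apply TorusGroup.ext
    · rw [mul_v, ev_U_k]
      show _ + act M g.k u = _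
      rw [hu, act_act, add_neg_cancel, act_zero]
      abel
    · rw [mul_k, ev_U_k]
      simp [tr]

/-! ### Lengths -/

theorem reach_Up {C : ℕ} (hC : ∀ (i : Fin 2) (a : ℤ),
    Reach (gen M) (C * (Nat.log 2 a.natAbs + 1)) (tr M (a • e i))) (s : Bool) (n : ℕ) :
    Reach (gen M) ((2 * C + 1) * 2 ^ n) (ev (gen M) (Up s n)) := by
  induction n with
  | zero => exact Reach.one _ _
  | succ n ih =>
    show Reach _ _ (ev (gen M) (Up s n ++ List.replicate (2 ^ 2 ^ n) (0, true) ++ [(2, s)]))
    rw [ev_append, ev_append]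
    have h1 : Reach (gen M) (C * (2 ^ n + 1))
        (ev (gen M) (List.replicate (2 ^ 2 ^ n) (0, true))) := by
      rw [ev_replicate]
      have h2 : letter (gen M) (0, true) = tr M (e 0) := rfl
      rw [h2, ← tr_nsmul]
      have h3 := hC 0 ((2 ^ 2 ^ n : ℕ) : ℤ)
      rw [Int.natAbs_natCast, natCast_zsmul, Nat.log_pow (by norm_num)] at h3
      exact h3
    have h2 : Reach (gen M) 1 (ev (gen M) [(2, s)]) := reach_ev (gen M) [(2, s)]
    refine ((ih.mul h1).mul h2).mono ?_
    have : 1 ≤ 2 ^ n := Nat.one_le_two_pow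
    rw [pow_succ]
    nlinarith

theorem Up_length (s : Bool) (n : ℕ) : 2 ^ n ≤ Nat.log 2 (Up s (n + 1)).length := by
  have h : (Up s (n + 1)).length = (Up s n).length + 2 ^ 2 ^ n + 1 := by
    show (Up s n ++ List.replicate (2 ^ 2 ^ n) ((0 : Fin 3), true) ++ [(2, s)]).length = _
    rw [List.length_append, List.length_append, List.length_replicate]
    rfl
  rw [h]
  apply Nat.le_log_of_pow_le (by norm_num)
  omega

theorem reach_lang {C : ℕ} (hC : ∀ (i : Fin 2) (a : ℤ),
    Reach (gen M) (C * (Nat.log 2 a.natAbs + 1)) (tr M (a • e i))) {w : Word 3} (hw : w ∈ lang) :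
    Reach (gen M) ((6 * C + 2) * (Nat.log 2 w.length + 1)) (ev (gen M) w) := by
  obtain ⟨k, a, b, rfl⟩ := hw
  set l := (U k ++ pw 0 a ++ pw 1 b).length with hl
  have hlen : l = (U k).length + a.natAbs + b.natAbs := by
    rw [hl, List.length_append, List.length_append]
    unfold pw
    rw [List.length_replicate, List.length_replicate]
  rw [ev_append, ev_append, ev_pw, ev_pw, gen_zero, gen_one, ← tr_zsmul, ← tr_zsmul]
  have h1 : Reach (gen M) (2 * (2 * C + 1) * (Nat.log 2 l + 1)) (ev (gen M) (U k)) := by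
    unfold U
    rcases Nat.eq_zero_or_pos k.natAbs with h | h
    · rw [h]
      exact Reach.one _ _
    · obtain ⟨n, hn⟩ : ∃ n, k.natAbs = n + 1 := ⟨k.natAbs - 1, by omega⟩
      rw [hn]
      refine (reach_Up hC _ (n + 1)).mono ?_
      have h2 := Up_length (decide (0 ≤ k)) n
      have h3 : Nat.log 2 (Up (decide (0 ≤ k)) (n + 1)).length ≤ Nat.log 2 l := by
        apply Nat.log_mono_right
        rw [hlen]
        unfold U
        rw [hn]
        omega
      rw [pow_succ]
      have h4 : 2 ^ n ≤ Nat.log 2 l := h2.trans h3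
      nlinarith
  have h2 : Reach (gen M) (C * (Nat.log 2 l + 1)) (tr M (a • e 0)) := by
    refine (hC 0 a).mono (Nat.mul_le_mul_left C (Nat.succ_le_succ (Nat.log_mono_right ?_)))
    omega
  have h3 : Reach (gen M) (C * (Nat.log 2 l + 1)) (tr M (b • e 1)) := by
    refine (hC 1 b).mono (Nat.mul_le_mul_left C (Nat.succ_le_succ (Nat.log_mono_right ?_)))
    omega
  refine ((h1.mul h2).mul h3).mono ?_
  nlinarith

theorem sL_le {C : ℕ} (hC : ∀ (i : Fin 2) (a : ℤ),
    Reach (gen M) (C * (Nat.log 2 a.natAbs + 1)) (tr M (a • e i))) (n : ℕ) :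
    sL (gen M) lang n ≤ 2 * (6 * C + 2) * (Nat.log 2 n + 1) := by
  unfold sL
  apply csSup_le'
  rintro d ⟨t, ht, w₁, hw₁, w₂, hw₂, i, -, rfl⟩
  have h1 := reach_lang hC (lang_prefixClosed w₁ hw₁ (w₁.take t) (List.take_prefix t w₁))
  have h2 := reach_lang hC (lang_prefixClosed w₂ hw₂ (w₂.take t) (List.take_prefix t w₂))
  have h3 : Nat.log 2 (w₁.take t).length ≤ Nat.log 2 n := by
    apply Nat.log_mono_right
    rw [List.length_take]; omega
  have h4 : Nat.log 2 (w₂.take t).length ≤ Nat.log 2 n := by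
    apply Nat.log_mono_right
    rw [List.length_take]; omega
  refine (wdist_le_add h1 h2).trans ?_
  nlinarith

end

/-! ### Growth of functions -/

theorem log_le_sqrt (n : ℕ) : Real.log (n + 1) ≤ 2 * Real.sqrt n := by
  have h0 : (0 : ℝ) ≤ n := Nat.cast_nonneg n
  have hs := Real.sqrt_nonneg (n : ℝ)
  have hs2 := Real.sq_sqrt h0
  have h1 : (n : ℝ) + 1 ≤ (Real.sqrt n + 1) ^ 2 := by nlinarith
  calc Real.log (n + 1) ≤ Real.log ((Real.sqrt n + 1) ^ 2) :=
        Real.log_le_log (by positivity) h1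
    _ = 2 * Real.log (Real.sqrt n + 1) := by rw [Real.log_pow]; norm_num
    _ ≤ 2 * Real.sqrt n := by
        have := Real.log_le_sub_one_of_pos (show 0 < Real.sqrt n + 1 by positivity)
        linarith

theorem log_muchLess : MuchLess (fun n => Real.log (n + 1)) (fun n => (n : ℝ)) := by
  refine ⟨fun n => Real.sqrt n, ?_, fun n => Real.sqrt_nonneg _, ?_, 2, 1, by norm_num,
    by norm_num, Filter.Eventually.of_forall fun n => ?_⟩
  · intro a b hab
    exact Real.sqrt_le_sqrt (by exact_mod_cast hab)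
  · intro B
    obtain ⟨k, hk⟩ := exists_nat_gt B
    refine ⟨(k + 1) ^ 2, ?_⟩
    show B < Real.sqrt (((k + 1) ^ 2 : ℕ) : ℝ)
    push_cast
    rw [Real.sqrt_sq (by positivity)]
    linarith
  · show Real.log (n + 1) * Real.sqrt n ≤ _
    have h0 : (0 : ℝ) ≤ n := Nat.cast_nonneg n
    have hs := Real.sqrt_nonneg (n : ℝ)
    have hs2 := Real.sq_sqrt h0
    have := log_le_sqrt n
    push_cast
    nlinarith

theorem log_mono : Monotone (fun n : ℕ => Real.log (n + 1)) := by
  intro a b hab
  have : (a : ℝ) ≤ b := by exact_mod_cast hab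
  exact Real.log_le_log (by positivity) (by linarith)

theorem log_nonneg' (n : ℕ) : 0 ≤ Real.log (n + 1) := by
  apply Real.log_nonneg
  have : (0 : ℝ) ≤ n := Nat.cast_nonneg n
  linarith

theorem natlog_le {n : ℕ} (hn : 1 ≤ n) : (Nat.log 2 n : ℝ) + 1 ≤ 4 * Real.log (n + 1) := by
  have h2 : (0.6931471803 : ℝ) < Real.log 2 := Real.log_two_gt_d9
  have hn' : (1 : ℝ) ≤ n := by exact_mod_cast hn
  have h1 : (Nat.log 2 n : ℝ) * Real.log 2 ≤ Real.log (n + 1) := by
    rw [← Real.log_pow]
    apply Real.log_le_log (by positivity)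
    have : 2 ^ Nat.log 2 n ≤ n := Nat.pow_log_le_self 2 (by omega)
    have : ((2 : ℝ)) ^ Nat.log 2 n ≤ n := by exact_mod_cast this
    linarith
  have h3 : Real.log 2 ≤ Real.log (n + 1) := Real.log_le_log (by norm_num) (by linarith)
  have h4 : (0 : ℝ) ≤ (Nat.log 2 n : ℝ) := Nat.cast_nonneg _
  nlinarith

theorem preceq_of {f : ℕ → ℕ} {C : ℕ} (hf : ∀ n, f n ≤ C * (Nat.log 2 n + 1)) :
    Preceq (fun n => (f n : ℝ)) (fun n => Real.log (n + 1)) := by
  refine ⟨4 * C + 1, 1, by omega, by norm_num, ?_⟩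
  rw [Filter.eventually_atTop]
  refine ⟨1, fun n hn => ?_⟩
  have h1 : (f n : ℝ) ≤ C * ((Nat.log 2 n : ℝ) + 1) := by exact_mod_cast hf n
  have h2 := natlog_le hn
  have h3 := log_nonneg' n
  have h4 : (0 : ℝ) ≤ C := Nat.cast_nonneg _
  rw [one_mul]
  push_cast
  nlinarith

end Pool.Agent.X185.SOL
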