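import Pool.Agent.X185.SOL.Defs

/-!
The torus bundle group `ℤ² ⋊_M ℤ` and the logarithmic distortion of `ℤ²`.
-/

set_option autoImplicit false

namespace Pool.Agent.X185.SOL

/-- The torus-bundle group `ℤ² ⋊_M ℤ`; the generator of `ℤ` acts on `ℤ²` by `M`. -/
@[ext] structure TorusGroup (M : Matrix.GeneralLinearGroup (Fin 2) ℤ) where
  /-- the `ℤ²` coordinate -/
  v : Fin 2 → ℤ
  /-- the `ℤ` coordinate -/
  k : ℤ

/-- The action of `M^k` on `ℤ²`. -/
def act (M : Matrix.GeneralLinearGroup (Fin 2) ℤ) (k : ℤ) (w : Fin 2 → ℤ) : Fin 2 → ℤ :=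
  Matrix.mulVec ((M ^ k : Matrix.GeneralLinearGroup (Fin 2) ℤ) : Matrix (Fin 2) (Fin 2) ℤ) w

section act

variable (M : Matrix.GeneralLinearGroup (Fin 2) ℤ)

theorem act_zero (w : Fin 2 → ℤ) : act M 0 w = w := by
  unfold act
  rw [zpow_zero, Units.val_one, Matrix.one_mulVec]

theorem act_act (k l : ℤ) (w : Fin 2 → ℤ) : act M k (act M l w) = act M (k + l) w := by
  unfold act
  rw [Matrix.mulVec_mulVec, zpow_add, Units.val_mul]

theorem act_vadd (k : ℤ) (v w : Fin 2 → ℤ) : act M k (v + w) = act M k v + act M k w := by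
  unfold act
  rw [Matrix.mulVec_add]

theorem act_vzero (k : ℤ) : act M k 0 = 0 := by
  unfold act
  rw [Matrix.mulVec_zero]

theorem act_vneg (k : ℤ) (v : Fin 2 → ℤ) : act M k (-v) = - act M k v := by
  unfold act
  rw [Matrix.mulVec_neg]

theorem act_nsmul (k : ℤ) (n : ℕ) (v : Fin 2 → ℤ) : act M k (n • v) = n • act M k v := by
  unfold act
  rw [Matrix.mulVec_smul]

end act

instance (M : Matrix.GeneralLinearGroup (Fin 2) ℤ) : Mul (TorusGroup M) :=
  ⟨fun g h => ⟨g.v + act M g.k h.v, g.k + h.k⟩⟩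

instance (M : Matrix.GeneralLinearGroup (Fin 2) ℤ) : One (TorusGroup M) := ⟨⟨0, 0⟩⟩

instance (M : Matrix.GeneralLinearGroup (Fin 2) ℤ) : Inv (TorusGroup M) :=
  ⟨fun g => ⟨- act M (-g.k) g.v, -g.k⟩⟩

section

variable {M : Matrix.GeneralLinearGroup (Fin 2) ℤ}

theorem mul_v (g h : TorusGroup M) : (g * h).v = g.v + act M g.k h.v := rfl
theorem mul_k (g h : TorusGroup M) : (g * h).k = g.k + h.k := rfl
theorem one_v : (1 : TorusGroup M).v = 0 := rfl
theorem one_k : (1 : TorusGroup M).k = 0 := rfl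
theorem inv_v (g : TorusGroup M) : (g⁻¹).v = - act M (-g.k) g.v := rfl
theorem inv_k (g : TorusGroup M) : (g⁻¹).k = - g.k := rfl

end

instance (M : Matrix.GeneralLinearGroup (Fin 2) ℤ) : Group (TorusGroup M) :=
  Group.ofLeftAxioms
    (fun g h l => by
      apply TorusGroup.ext
      · simp only [mul_v, mul_k, act_vadd, act_act, add_assoc]
      · simp only [mul_k, add_assoc])
    (fun g => by
      apply TorusGroup.ext
      · rw [mul_v, one_v, one_k, act_zero, zero_add]
      · rw [mul_k, one_k, zero_add])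
    (fun g => by
      apply TorusGroup.ext
      · rw [mul_v, inv_v, inv_k, one_v, neg_add_cancel]
      · rw [mul_k, inv_k, one_k, neg_add_cancel])

/-- The generators `e₁, e₂, t`. -/
def gen (M : Matrix.GeneralLinearGroup (Fin 2) ℤ) : Fin 3 → TorusGroup M :=
  ![⟨![1, 0], 0⟩, ⟨![0, 1], 0⟩, ⟨0, 1⟩]

section

variable {M : Matrix.GeneralLinearGroup (Fin 2) ℤ}

/-- translation -/
def tr (M : Matrix.GeneralLinearGroup (Fin 2) ℤ) (v : Fin 2 → ℤ) : TorusGroup M := ⟨v, 0⟩

/-- the element `t^k`. -/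
def tk (M : Matrix.GeneralLinearGroup (Fin 2) ℤ) (k : ℤ) : TorusGroup M := ⟨0, k⟩

theorem tr_mul (v w : Fin 2 → ℤ) : tr M v * tr M w = tr M (v + w) := by
  apply TorusGroup.ext
  · rw [mul_v]; simp only [tr]; rw [act_zero]
  · rw [mul_k]; simp [tr]

theorem tr_zero : tr M 0 = 1 := rfl

theorem tr_inv (v : Fin 2 → ℤ) : (tr M v)⁻¹ = tr M (-v) := by
  apply TorusGroup.ext
  · rw [inv_v]; simp only [tr]; rw [neg_zero, act_zero]
  · rw [inv_k]; simp [tr]

theorem tk_mul (k l : ℤ) : tk M k * tk M l = tk M (k + l) := by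
  apply TorusGroup.ext
  · rw [mul_v]; simp only [tk]; rw [act_vzero, add_zero]
  · rw [mul_k]; simp [tk]

theorem tk_tr (k : ℤ) (v : Fin 2 → ℤ) : tk M k * tr M v = tr M (act M k v) * tk M k := by
  apply TorusGroup.ext
  · rw [mul_v, mul_v]; simp only [tk, tr]; rw [act_zero, zero_add, add_zero]
  · rw [mul_k, mul_k]; simp [tr, tk]

theorem tr_tk (v : Fin 2 → ℤ) (k : ℤ) : tr M v * tk M k = ⟨v, k⟩ := by
  apply TorusGroup.ext
  · rw [mul_v]; simp only [tk, tr]; rw [act_zero, add_zero]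
  · rw [mul_k]; simp [tr, tk]

theorem tr_nsmul (n : ℕ) (v : Fin 2 → ℤ) : tr M (n • v) = tr M v ^ n := by
  induction n with
  | zero => rw [zero_smul, pow_zero, tr_zero]
  | succ n ih => rw [succ_nsmul, pow_succ, ← tr_mul, ih]

theorem tr_zsmul (n : ℤ) (v : Fin 2 → ℤ) : tr M (n • v) = tr M v ^ n := by
  obtain ⟨j, rfl | rfl⟩ := n.eq_nat_or_neg
  · rw [zpow_natCast, natCast_zsmul, tr_nsmul]
  · rw [zpow_neg, neg_smul, ← tr_inv, zpow_natCast, natCast_zsmul, tr_nsmul]

theorem tk_npow (n : ℕ) : tk M n = tk M 1 ^ n := by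
  induction n with
  | zero => rfl
  | succ n ih => rw [pow_succ, ← ih, tk_mul]; push_cast; rfl

theorem tk_inv (k : ℤ) : (tk M k)⁻¹ = tk M (-k) := by
  apply TorusGroup.ext
  · rw [inv_v]; simp only [tk]; rw [act_vzero, neg_zero]
  · rw [inv_k]; simp [tk]

theorem tk_zpow (k : ℤ) : tk M k = tk M 1 ^ k := by
  obtain ⟨j, rfl | rfl⟩ := k.eq_nat_or_neg
  · rw [zpow_natCast, tk_npow]
  · rw [← tk_inv, zpow_neg, zpow_natCast, tk_npow]

/-- the two basis vectors -/
def e (i : Fin 2) : Fin 2 → ℤ := if i = 0 then ![1, 0] else ![0, 1]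

theorem gen_zero : gen M 0 = tr M (e 0) := rfl
theorem gen_one : gen M 1 = tr M (e 1) := rfl
theorem gen_two : gen M 2 = tk M 1 := rfl

theorem reach_e (i : Fin 2) : Reach (gen M) 1 (tr M (e i)) := by
  fin_cases i
  · exact Reach.gen (gen M) 0
  · exact Reach.gen (gen M) 1

theorem reach_tk (k : ℤ) : Reach (gen M) k.natAbs (tk M k) := by
  have := (Reach.gen (gen M) 2).zpow k
  rw [mul_one, gen_two, ← tk_zpow] at this
  exact this

theorem vec_eq (v : Fin 2 → ℤ) : v = v 0 • e 0 + v 1 • e 1 := by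
  ext i
  fin_cases i <;> simp [e]

theorem closure_gen : Subgroup.closure (Set.range (gen M)) = ⊤ := by
  rw [eq_top_iff]
  intro g _
  have hg : g = tr M (e 0) ^ (g.v 0) * tr M (e 1) ^ (g.v 1) * tk M 1 ^ g.k := by
    rw [← tr_zsmul, ← tr_zsmul, ← tk_zpow, tr_mul, ← vec_eq, tr_tk]
  rw [hg]
  have h : ∀ i : Fin 3, gen M i ∈ Subgroup.closure (Set.range (gen M)) :=
    fun i => Subgroup.subset_closure ⟨i, rfl⟩
  exact Subgroup.mul_mem _ (Subgroup.mul_mem _ (Subgroup.zpow_mem _ (h 0) _)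
    (Subgroup.zpow_mem _ (h 1) _)) (Subgroup.zpow_mem _ (h 2) _)

/-! ### Chips -/

/-- The value of a configuration of chips. -/
def val (M : Matrix.GeneralLinearGroup (Fin 2) ℤ) (w : Fin 2 → ℤ) (s : Multiset ℤ) :
    Fin 2 → ℤ := (s.map (fun i => act M (2 * i) w)).sum

/-- The potential of a configuration of chips. -/
noncomputable def pot (s : Multiset ℤ) : ℝ := (s.map (fun i : ℤ => (3 / 2 : ℝ) ^ i.natAbs)).sum

theorem val_add (w : Fin 2 → ℤ) (s r : Multiset ℤ) : val M w (s + r) = val M w s + val M w r := by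
  unfold val
  rw [Multiset.map_add, Multiset.sum_add]

theorem val_replicate (w : Fin 2 → ℤ) (n : ℕ) (i : ℤ) :
    val M w (Multiset.replicate n i) = n • act M (2 * i) w := by
  unfold val
  rw [Multiset.map_replicate, Multiset.sum_replicate]

theorem pot_add (s r : Multiset ℤ) : pot (s + r) = pot s + pot r := by
  unfold pot
  rw [Multiset.map_add, Multiset.sum_add]

theorem pot_replicate (n : ℕ) (i : ℤ) :
    pot (Multiset.replicate n i) = n * (3 / 2 : ℝ) ^ i.natAbs := by
  unfold pot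
  rw [Multiset.map_replicate, Multiset.sum_replicate, nsmul_eq_mul]

theorem pot_neighbours (i : ℤ) {T : ℕ} (hT : 3 ≤ T) :
    pot {i - 1, i + 1} ≤ T * (3 / 2 : ℝ) ^ i.natAbs := by
  have h0 : pot {i - 1, i + 1} = (3 / 2 : ℝ) ^ (i - 1).natAbs + (3 / 2 : ℝ) ^ (i + 1).natAbs := by
    unfold pot
    simp
  rw [h0]
  have hT' : (3 : ℝ) ≤ T := by exact_mod_cast hT
  rcases lt_trichotomy i 0 with h | h | h
  · have e1 : (i - 1).natAbs = i.natAbs + 1 := by omega
    have e2 : (i + 1).natAbs + 1 = i.natAbs := by omega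
    rw [e1, ← e2, pow_succ, pow_succ]
    have : (0 : ℝ) < (3 / 2 : ℝ) ^ (i + 1).natAbs := by positivity
    nlinarith
  · subst h
    norm_num
    linarith
  · have e1 : (i + 1).natAbs = i.natAbs + 1 := by omega
    have e2 : (i - 1).natAbs + 1 = i.natAbs := by omega
    rw [e1, ← e2, pow_succ, pow_succ]
    have : (0 : ℝ) < (3 / 2 : ℝ) ^ (i - 1).natAbs := by positivity
    nlinarith

/-- Every configuration can be made stable without increasing the potential. -/
theorem exists_stable (w : Fin 2 → ℤ) {T : ℕ} (hT : 3 ≤ T)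
    (hP : ∀ k : ℤ, act M (2 * (k - 1)) w + act M (2 * (k + 1)) w = T • act M (2 * k) w) :
    ∀ (n : ℕ) (s : Multiset ℤ), s.card = n → ∃ s' : Multiset ℤ, val M w s' = val M w s ∧
      pot s' ≤ pot s ∧ ∀ i, s'.count i < T := by
  intro n
  induction n using Nat.strong_induction_on with
  | _ n ih =>
    intro s hs
    by_cases hst : ∀ i, s.count i < T
    · exact ⟨s, rfl, le_rfl, hst⟩
    · push Not at hst
      obtain ⟨i, hi⟩ := hst
      obtain ⟨r, hr⟩ := Multiset.le_iff_exists_add.1 (Multiset.le_count_iff_replicate_le.1 hi)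
      have hcard : s.card = T + r.card := by
        rw [hr, Multiset.card_add, Multiset.card_replicate]
      obtain ⟨s', h1, h2, h3⟩ := ih (r.card + 2) (by omega) (r + {i - 1, i + 1}) (by simp)
      refine ⟨s', ?_, ?_, h3⟩
      · rw [h1, hr, val_add, val_add, val_replicate, ← hP i]
        unfold val
        simp only [Multiset.insert_eq_cons, Multiset.map_cons, Multiset.map_singleton,
          Multiset.sum_cons, Multiset.sum_singleton]
        rw [add_comm]
      · refine h2.trans ?_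
        rw [hr, pot_add, pot_add, pot_replicate]
        have := pot_neighbours i hT
        linarith

theorem pot_mem {s : Multiset ℤ} {i : ℤ} (hi : i ∈ s) : (3 / 2 : ℝ) ^ i.natAbs ≤ pot s := by
  unfold pot
  apply Multiset.single_le_sum
  · intro x hx
    rw [Multiset.mem_map] at hx
    obtain ⟨j, -, rfl⟩ := hx
    positivity
  · exact Multiset.mem_map_of_mem _ hi

/-- Length of the word evaluating a stable configuration. -/
theorem reach_val {w : Fin 2 → ℤ} (hw : Reach (gen M) 1 (tr M w)) {T : ℕ} (lo : ℤ) :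
    ∀ (m : ℕ) (s : Multiset ℤ), (∀ i, s.count i < T) → (∀ i ∈ s, lo ≤ i ∧ i < lo + m) →
      Reach (gen M) ((2 * lo).natAbs + m * (T + 2)) (tr M (val M w s) * tk M (2 * (lo + m))) := by
  intro m
  induction m with
  | zero =>
    intro s _ hs
    have : s = 0 := by
      rw [Multiset.eq_zero_iff_forall_notMem]
      intro i hi
      have := hs i hi
      push_cast at this
      omega
    subst this
    have h0 : val M w 0 = 0 := by simp [val]
    rw [h0, tr_zero, one_mul]
    simpa using reach_tk (2 * lo)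
  | succ m ih =>
    intro s hT hs
    set j : ℤ := lo + m with hj
    have hsplit : s = s.filter (fun i => i ≠ j) + Multiset.replicate (s.count j) j := by
      rw [← Multiset.filter_eq' s j]
      rw [add_comm]
      exact (Multiset.filter_add_not (fun i => i = j) s).symm
    have h1 := ih (s.filter (fun i => i ≠ j))
      (fun i => (Multiset.count_le_of_le i (Multiset.filter_le _ s)).trans_lt (hT i))
      (fun i hi => by
        rw [Multiset.mem_filter] at hi
        have := hs i hi.1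
        have h2 := hi.2
        push_cast at this
        omega)
    have h2 : Reach (gen M) (s.count j * 1) (tr M ((s.count j) • w)) := by
      rw [tr_nsmul]; exact hw.pow _
    have h3 := (h1.mul h2).mul (reach_tk (M := M) 2)
    have e1 : tr M (val M w s) * tk M (2 * (lo + ((m + 1 : ℕ) : ℤ))) =
        tr M (val M w (s.filter (fun i => i ≠ j))) * tk M (2 * (lo + m)) *
          tr M ((s.count j) • w) * tk M 2 := by
      have e2 : val M w s = val M w (s.filter (fun i => i ≠ j)) +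
          act M (2 * j) ((s.count j) • w) := by
        conv_lhs => rw [hsplit]
        rw [val_add, val_replicate, act_nsmul]
      rw [e2, mul_assoc (tr M _) (tk M _) (tr M _), tk_tr, ← hj, ← tr_mul, ← mul_assoc, mul_assoc _ (tk M _) (tk M _),
        tk_mul]
      congr 2
      rw [hj]; push_cast; ring
    rw [e1]
    refine h3.mono ?_
    have h4 := hT j
    have h5 : Int.natAbs 2 = 2 := rfl
    rw [h5]
    nlinarith

/-- `ℤ²` is exponentially distorted. -/
theorem reach_nsmul {w : Fin 2 → ℤ} (hw : Reach (gen M) 1 (tr M w)) {T : ℕ} (hT : 3 ≤ T)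
    (hP : ∀ k : ℤ, act M (2 * (k - 1)) w + act M (2 * (k + 1)) w = T • act M (2 * k) w) (a : ℕ) :
    Reach (gen M) ((4 * T + 16) * (Nat.log 2 a + 1)) (tr M (a • w)) := by
  obtain ⟨s, h1, h2, h3⟩ := exists_stable w hT hP _ (Multiset.replicate a 0) rfl
  rw [val_replicate, mul_zero, act_zero] at h1
  rw [pot_replicate, Int.natAbs_zero, pow_zero, mul_one] at h2
  set l := Nat.log 2 a with hl
  have hpos : ∀ i ∈ s, -((2 * l + 1 : ℕ) : ℤ) ≤ i ∧ i < -((2 * l + 1 : ℕ) : ℤ) + ((4 * l + 3 : ℕ) : ℤ) := by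
    intro i hi
    have h4 := (pot_mem hi).trans h2
    have h5 : (a : ℝ) < 2 ^ (l + 1) := by
      exact_mod_cast Nat.lt_pow_succ_log_self (by norm_num) a
    have h6 : (2 : ℝ) ^ (l + 1) ≤ (3 / 2 : ℝ) ^ (2 * (l + 1)) := by
      rw [pow_mul]
      apply pow_le_pow_left₀ (by norm_num)
      norm_num
    have h7 : (3 / 2 : ℝ) ^ i.natAbs < (3 / 2 : ℝ) ^ (2 * (l + 1)) := by linarith
    have h8 : i.natAbs < 2 * (l + 1) := (pow_lt_pow_iff_right₀ (by norm_num)).1 h7
    push_cast
    omega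
  have h9 := reach_val hw (-((2 * l + 1 : ℕ) : ℤ)) (4 * l + 3) s h3 hpos
  have h10 := h9.mul (reach_tk (M := M) (-(2 * (-((2 * l + 1 : ℕ) : ℤ) + ((4 * l + 3 : ℕ) : ℤ)))))
  rw [mul_assoc, tk_mul, add_neg_cancel, h1] at h10
  have h11 : tk M 0 = 1 := rfl
  rw [h11, mul_one] at h10
  refine h10.mono ?_
  have h12 : (2 * (-((2 * l + 1 : ℕ) : ℤ))).natAbs = 4 * l + 2 := by push_cast; omega
  have h13 : (-(2 * (-((2 * l + 1 : ℕ) : ℤ) + ((4 * l + 3 : ℕ) : ℤ)))).natAbs = 4 * l + 4 := by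
    push_cast; omega
  rw [h12, h13]
  nlinarith

theorem reach_zsmul {w : Fin 2 → ℤ} (hw : Reach (gen M) 1 (tr M w)) {T : ℕ} (hT : 3 ≤ T)
    (hP : ∀ k : ℤ, act M (2 * (k - 1)) w + act M (2 * (k + 1)) w = T • act M (2 * k) w) (a : ℤ) :
    Reach (gen M) ((4 * T + 16) * (Nat.log 2 a.natAbs + 1)) (tr M (a • w)) := by
  obtain ⟨j, rfl | rfl⟩ := a.eq_nat_or_neg
  · rw [natCast_zsmul]; simpa using reach_nsmul hw hT hP j
  · rw [neg_smul, ← tr_inv, natCast_zsmul]; simpa using (reach_nsmul hw hT hP j).inv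

end

end Pool.Agent.X185.SOL
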